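import Mathlib
import Pool.Agent.Run7.h370.TY.ElemUse
import Pool.Agent.Run7.h370.TY.Tower
import Pool.Agent.X303.RegDefs

/-!
# The conjecture of Beilinson for the higher Chow groups of the smooth varieties generated by abelian
varieties whose slopes are nondegenerate modulo a prime, or ordinary with nonsquare products

Let `E k` be finitely many CM fields and `u k i`, `i : I k`, finitely many integral functions on the
complex embeddings of `E k` with `u k i (conj φ) = - u k i φ`. They will be the deviations of the slopes
from their mean, up to a factor. Nothing is assumed about the Galois groups of the fields. Different
fields are flipped (`FieldsFlipped`): for complex embeddings `φ` of `E k` and `ψ` of `E l`, `k ≠ l`,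
some automorphism of `ℂ` fixes one of them and maps the other one to its complex conjugate. This is
no condition if there is only one field, and it is true if the normal closures of the fields are
linearly disjoint. For each `k` we assume one of the following two conditions (`IsNondegenerate`):

1. (`NondegenerateModulo`) There are a prime number `r` and a group `H` of automorphisms of `ℂ` each
  of which acts on the set of the embeddings `φ` of `E k` with an order that is a power of `r` (so this
  is any subgroup of `r`-power order of the Galois group of the normal closure, for instance a Sylow
  subgroup, with any orbits), such that: if `b i` are functions on the embeddings with values in
  `ℤ / r`, invariant under `H`, with `b i (conj φ) = - b i φ` and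
  `∑ i, ∑ φ, b i φ * u k i (g φ) = 0` for all automorphisms `g` of `ℂ`, the sum over representatives `φ`
  of the pairs of conjugate embeddings, then all `b i` are zero. So for each pair of conjugate orbits
  of `H` there is one unknown number modulo `r` for each `i`, and the condition is that the linear
  equations for them, one for each `g`, have only the trivial solution.
2. (`NonsquareProducts`) There is only one function `u k i`, **all of its values are odd** (for
  instance `1` and `- 1`, the case of ordinary abelian varieties), and there is a number `ε` in `E k` with
  `conj ε = - ε` such that for all nonempty sets `B` of complex embeddings `φ` of `E k` which consist of
  an even number of pairs of conjugate embeddings, and for which the number of the translates under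
  the automorphisms of `ℂ` is odd (so `B` is stable under a Sylow 2-subgroup `P` of the Galois group),
  the product of the numbers `φ ε`, `φ ∈ B`, is not the square of an algebraic number of odd degree. In
  other words, some element of `P` acts on `B` as an odd permutation. This is a condition on the field
  only.

The second part of the theorem says that the condition on the field is satisfied (`NonsquareNorms`)
if the field is an extension of 2-power degree of a field `R` whose normal closure over `ℚ` has odd
degree, and if for all nonempty sets `S` of complex embeddings of `R` (with an even number of elements,
if the field is quadratic over `R`) the product of the numbers `σ (N ε)`, `σ ∈ S`, is not the square of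
an algebraic number of odd degree, where `N ε` is the norm of `ε` to `R`, for some `ε` with
`conj ε = - ε`. For `R = ℚ` the condition is that the norm of `ε` is not the square of a rational number
(if the degree of the field is a power of `2` and at least `4`).

Over an algebraic closure of the field with `p` elements each abelian variety is isogenous to the
reduction of an abelian variety of CM type (Honda, Tate). So an abelian variety over the field with
`p ^ a` elements is modelled by `RedAV`: a finite product of CM types `(E i, Φ i)` with Weil numbers
`π i ∈ E i` that satisfy the formula of Shimura and Taniyama; its cohomology of degree `n`, with
coefficients in an algebraically closed field `Ω`, consists of the alternating `n`-forms on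
`Ω ⊗ H_1`, on which the Frobenius endomorphism acts by `π`. We fix an isomorphism `ν` of the algebraic
closure of `ℚ_p` with `ℂ`; it defines a `p`-adic valuation of `ℂ`, with the value one at `p`.

Let `𝒞` (`OfSlopes`) be the class of the abelian varieties `Y` each of whose factors is supersingular or
has a Frobenius endomorphism some power of which (with exponent `s`, say) is, for some `k` and `i`, a
number `x` in `E k` whose slopes are given by `u k i`: `2 ord_p (φ x) - s a = s b k * u k i φ` for all `φ`,
where the real number `b k ≠ 0` depends only on `Y` and `k`. The class contains all products of powers
of its members, and the products of its members with supersingular abelian varieties. If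
`u k i = 1` on a CM type `Φ` and `- 1` outside of it, then for `b k = a` these are the ordinary abelian
varieties with the CM type `Φ`.

`Homology Ω V` are data of motivic homology `M X i j = H_i^M(X, ℚ(j)) = CH_j(X, i - 2 j) ⊗ ℚ` and of
`ℓ`-adic homology `E X i j = H_i(X, ℚ_ℓ(j))` (coefficients extended to `Ω`) of schemes `X` of finite
type over a finite field (the elements of `V`), with the Frobenius and the regulator. Let `𝒢` be the
smallest class (`Generated`) of such schemes that contains those with the homology groups of abelian
varieties in `𝒞` (`IsAbelianOfSlopes`), that is closed under direct summands of finite sums of twists of
motives, and that contains all of a closed subscheme `Z` of `X`, `X` and `X ∖ Z` if it contains two of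
them. It contains for instance all products of varieties in `𝒞`, all products of curves with Jacobians
in `𝒞` and of open subsets of such curves, symmetric powers of them, and the singular and the open
varieties with a stratification by such varieties.

The conclusion. Let `X` be a smooth variety of pure dimension `d` in `𝒢` (the theorem is true for all
members). Then `H^i_M(X, ℚ(j)) = H_(2 d - i)^M(X, ℚ(d - j)) = M X (2 d - i) (d - j)` and the same for
`ℓ`-adic cohomology. **For all `i` and `j` the map `c^(i, j)` is injective**: elements of
`H^i_M(X, ℚ(j))` which are linearly independent over `ℚ` have images in `H^i(X, ℚ_ℓ(j)) ⊗ Ω` which are
linearly independent over `Ω` (`RegInjective`).

Properties of the theory of cycles that are used for the abelian varieties (`IsChow`,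
`IsMotivic`): Poincaré duality, the formal properties of correspondences, the nilpotence of
homologically trivial correspondences (Kimura), the operation of the Frobenius endomorphism on higher
Chow groups, the vanishing of the higher rational `K`-groups of a finite field (Quillen), and the
algebraicity of the classes in `Alg` (of which only products of classes of divisors matter here,
theorem of Tate). The passage from the Tate conjecture to all degrees and to the class `Generated` is
due to Soulé, Geisser, Kahn and Jannsen.

The starting files contain criteria of this kind: `PrimePowerCentre` and `OddClasses` of
MP_0d42ed_ag (where the `r`-group is transitive on the pairs of conjugate embeddings, or more generally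
on those of a class of embeddings that are not flipped; they contain the second condition for the
fields of 2-power degree, in the form that some automorphism acts as an odd permutation of the
embeddings), `OneFrobeniusSignature` and `FrobeniusPrimePower` (odd `r`, transitive on the embeddings
over those of an imaginary quadratic field), `OneFrobeniusTowers` (towers over CM fields, odd `r`). New
here are arbitrary groups of prime power order with several orbits, several functions on the same
field, and the second condition for groups with several orbits (so for fields of arbitrary degree).
The derivation of the conclusion from the absence of relations is a theorem of the starting files.

The proof. A relation between the Frobenius eigenvalues gives, by the `p`-adic valuations of its images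
under all automorphisms, relations for each field separately since the fields are flipped:
`∑ i, ∑ φ, c i φ * u i (g φ) = 0` for all `g`, with integral functions `c i` with
`c i (conj φ) = - c i φ`. If `c ≠ 0` we divide it by the greatest common divisor of its values.

In the first case we restrict the relations to representatives of the pairs of conjugate
embeddings (the restricted relations are still true, as the two halves of the sum are equal), and
reduce them modulo `r`. So the space of the odd functions modulo `r` with all the relations is not
zero. Its number of elements is a power of `r`, the group `H` acts on it through a group of `r`-power
order, so it contains a nonzero function which is invariant under `H`, a contradiction.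

In the second case all the relations are the same modulo `2`, since all values of `u` are odd. But the
differences of two of the restricted relations can be divided by `2`: so modulo `2` we have
`∑ c φ = 0`, and `∑ c φ = 0` where the sum is only over those pairs of conjugate embeddings for which
`u (g φ)` and `u φ` are different modulo `4`. The space of the functions modulo `2` with these relations
is stable under the Galois group. So it contains a nonzero function `b` which is invariant under a Sylow
2-subgroup `P`. Let `B` be the set of the embeddings with `b = 1`, and let `y` be the product of the
numbers `φ (ε)`, for all `φ` in `B` with `u φ = 1` modulo `4`. Then `B` consists of an even number of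
pairs, `y ^ 2` is the product of the numbers `φ (ε)`, `φ ∈ B`, and the relations for `g ∈ P` say that
`y` is invariant under `P`. So the degree of `y` is odd, a contradiction. In the second part `P` acts
trivially on the embeddings of `R`, and transitively on the embeddings over each of them, so `B`
consists of all the embeddings over a set `S`.
-/

set_option autoImplicit false

namespace Pool.Agent.Results.MP_b52861_ag.NondegenerateSlopes

open NumberField Module Pool.Agent.W495.TA Run7.h370.MR Run7.h370.TY Pool.Agent.W495.FM Pool.Agent.X303.TBDual

/-- **The maps `c^(i, j)` are injective for all `i` and `j` and all smooth `X` generated by abelian
varieties whose slopes are nondegenerate modulo a prime number, or odd in CM fields with nonsquare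
products.** -/
theorem result :
    (∀ (p : ℕ) [Fact p.Prime] (ν : PadicAlgCl p ≃+* ℂ) (κ : Type) [Fintype κ] (E : κ → Type)
      [∀ k, Field (E k)] [∀ k, NumberField (E k)] [∀ k, IsCMField (E k)] (I : κ → Type)
      [∀ k, Fintype (I k)] (u : ∀ k, I k → (E k →+* ℂ) → ℤ), FieldsFlipped E →
      (∀ k i φ, u k i (ComplexEmbedding.conjugate φ) = - u k i φ) → (∀ k, IsNondegenerate (u k)) →
        ∀ (Ω : Type) [Field Ω] [IsAlgClosed Ω] [CharZero Ω] (V : Type) (T : Homology Ω V),
          IsHomology T → ∀ X : V, Generated T (IsAbelianOfSlopes ν u T) X →
            ∀ (d i j : ℤ), RegInjective T X (2 * d - i) (d - j)) ∧
    ∀ (R E : Type) [Field R] [NumberField R] [Field E] [NumberField E] [IsCMField E]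
      [Algebra R E], NonsquareNorms R E → NonsquareProducts E := by
  refine ⟨?_, fun R E _ _ _ _ _ _ h => nonsquareProducts_of_norms h⟩
  intro p _ ν κ _ E _ _ _ I _ u hE hodd hu Ω _ _ _ V T hT X hX d i j
  exact (tb_slopes (fun Y hY => elementary_of_slopes hE hu hodd hY) hT hX _ _).2.1

end Pool.Agent.Results.MP_b52861_ag.NondegenerateSlopes
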